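import Mathlib
import Pool.Agent.Q218.UB.Lf
import Pool.Agent.Q218.UB.M
import Pool.Agent.Q218.UB.N

/-!
# Level sets of billiard eigenfunctions: upper bounds for their mean length (MP_6b977f_mp)

Definitions and proofs of helper218 for the hand-ins DirectionalDerivatives and LengthOfLevelCurves.

Let `Ω` be an open subset of the plane and `u_n` real solutions of `Δu + λ_n u = 0` in `Ω`, `λ_n → ∞`, which
are bounded in `L²` on the compact subsets of `Ω`; no boundary condition is used. The theorem: for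
`a ≤ b` the integral of `|∇u_n|` over the part of a Borel set `B` where `a ≤ u_n ≤ b`, divided by `√λ_n`, is
asymptotically at most `(b - a) |B| / 2`; with a directional derivative instead of the gradient it is at
most `(b - a) |B| / π`; and the length of the regular part of the level curve `{u_n = s}` in an open set
`V`, integrated over the levels `s ∈ [a, b]` and divided by `√λ_n`, is asymptotically at most
`(b - a) |V| / 2`. Here `B` is contained in a compact subset of `Ω`, or the area of `B` is finite and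
the energy of `u_n` on `B` is `O(λ_n)` (such as `B = Ω` for Dirichlet or Neumann conditions). The constant
`1 / π` is sharp (Neumann eigenfunctions of the square). The random wave of Berry's conjecture has
`1 / (2 √2)` times the integral of `exp (-s² / 2)` over `[a, b]` in the place of `(b - a) / 2`.

Proof. On a small disc let `h_k = (λ_n^(-1/2) ∂_v)^k u_n`; all these functions solve the same equation, and
in the mean over a test function the shift by `λ_n^(-1/2) x` changes nothing asymptotically: this replaces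
stationarity. The energy identity gives `mean h_(k+1)² ≤ mean h_k² + o(1)`, so the Taylor sums
`p(y) = ∑_{k ≤ N} (i y)^k / k! h_k` satisfy `mean |p(y)|² ≤ C e^{2|y|}`. For a real `s` and `δ > 0` put
`φ(y) = mean (1/2) log (|p(y) - s|² + δ²)`. Then `φ''(y)` is up to a small error the mean of
`2 δ² |∂_v p|² / (|p - s|² + δ²)²`, and `φ(H) - φ(0) ≤ H + C`. Integration over `s` in an interval and the limit
`δ → 0`, then `H → ∞`, give the bound for `|∂_v u_n|`; the mean over all directions `v` gives the one for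
`|∇u_n|`, since the mean of `|cos|` is `2 / π`. The length of the regular part of a level curve is at most the
lower limit of the integrals of `|∇u_n|` over `|u_n - s| ≤ ε`, divided by `2 ε` (project NL of helper73).
-/

set_option autoImplicit false
open MeasureTheory Filter Topology
open scoped ContDiff ENNReal

namespace Pool.Agent.HT177.Split.LS

noncomputable section

/-- the Laplacian of the plane `ℂ`: `∂_x² + ∂_y²` -/
def laplacian (f : ℂ → ℝ) (z : ℂ) : ℝ :=
  fderiv ℝ (fun w => fderiv ℝ f w 1) z 1 + fderiv ℝ (fun w => fderiv ℝ f w Complex.I) z Complex.I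

/-- `|∇f|` -/
def gradNorm (f : ℂ → ℝ) (z : ℂ) : ℝ := √(fderiv ℝ f z 1 ^ 2 + fderiv ℝ f z Complex.I ^ 2)

/-- `u n` are real smooth solutions of `Δu + λ_n u = 0` in the open set `Ω`, `λ_n → ∞`, and for every
compact `K ⊆ Ω` the integrals of `u_n²` over `K` are bounded for large `n` -/
structure IsWaveSequence (Ω : Set ℂ) (lam : ℕ → ℝ) (u : ℕ → ℂ → ℝ) : Prop where
  isOpen : IsOpen Ω
  tendsto : Tendsto lam atTop atTop
  smooth : ∀ n, ContDiffOn ℝ ∞ (u n) Ω
  eigen : ∀ n, ∀ z ∈ Ω, laplacian (u n) z + lam n * u n z = 0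
  bounded : ∀ K : Set ℂ, IsCompact K → K ⊆ Ω → ∃ C : ℝ, ∀ᶠ n in atTop, ∫ z in K, u n z ^ 2 ≤ C

/-- `B` lies in a compact subset of `Ω`, or `B` has finite area and `∫_B |∇u_n|² ≤ C λ_n` for large `n` -/
def Controlled (Ω : Set ℂ) (lam : ℕ → ℝ) (u : ℕ → ℂ → ℝ) (B : Set ℂ) : Prop :=
  (∃ K : Set ℂ, IsCompact K ∧ B ⊆ K ∧ K ⊆ Ω) ∨
    (volume B ≠ ⊤ ∧ ∃ C : ℝ, 0 ≤ C ∧ ∀ᶠ n in atTop,
      ∫⁻ z in B, ENNReal.ofReal (gradNorm (u n) z ^ 2) ≤ ENNReal.ofReal (C * lam n))

/-- the regular part of the level curve `{u = s}` in `V` -/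
def levelCurve (u : ℂ → ℝ) (V : Set ℂ) (s : ℝ) : Set ℂ := {z | z ∈ V ∧ u z = s ∧ fderiv ℝ u z ≠ 0}

/-- the open square with side `π` -/
def square : Set ℂ := {z | (0 < z.re ∧ z.re < Real.pi) ∧ (0 < z.im ∧ z.im < Real.pi)}

/-- the Neumann eigenfunction `√2 cos (n x)` of the square -/
def neumann (n : ℕ) (z : ℂ) : ℝ := √2 * Real.cos (n * z.re)

/-- **Upper bounds for level sets.** Consider a sequence of solutions as above. (1) For every Borel set
`B ⊆ Ω` as above and all `a ≤ b`: the limsup of `λ_n^(-1/2) ∫_{B, a ≤ u_n ≤ b} |∇u_n|` is at most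
`(b - a) / 2` times the area of `B`, and for every unit vector `v` the limsup of
`λ_n^(-1/2) ∫_{B, a ≤ u_n ≤ b} |∂_v u_n|` is at most `(b - a) / π` times the area of `B`. (2) For every open
`V ⊆ Ω` as above there are measurable majorants `L_n (s)` of the lengths of the regular parts of the
level curves `{u_n = s}` in `V` such that for all `a ≤ b` the limsup of `λ_n^(-1/2) ∫_a^b L_n (s) ds` is at
most `(b - a) / 2` times the area of `V`. (3) The Neumann eigenfunctions `√2 cos (n x)` of the square `Q`,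
`λ = n²`, form such a sequence, `B = Q` is admissible, and for `-√2 ≤ a ≤ b ≤ √2` and `n ≥ 1` one has
`λ^(-1/2) ∫_{Q, a ≤ u ≤ b} |∂_x u| = (b - a) / π` times the area of `Q`. -/
theorem all :
    (∀ (Ω : Set ℂ) (lam : ℕ → ℝ) (u : ℕ → ℂ → ℝ), IsWaveSequence Ω lam u →
      (∀ B : Set ℂ, MeasurableSet B → B ⊆ Ω → Controlled Ω lam u B → ∀ a b : ℝ, a ≤ b →
        limsup (fun n => (∫⁻ z in B ∩ {z | a ≤ u n z ∧ u n z ≤ b}, ENNReal.ofReal (gradNorm (u n) z)) /
          ENNReal.ofReal √(lam n)) atTop ≤ ENNReal.ofReal ((b - a) / 2) * volume B ∧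
        ∀ v : ℂ, ‖v‖ = 1 →
          limsup (fun n => (∫⁻ z in B ∩ {z | a ≤ u n z ∧ u n z ≤ b},
            ENNReal.ofReal |fderiv ℝ (u n) z v|) / ENNReal.ofReal √(lam n)) atTop ≤
            ENNReal.ofReal ((b - a) / Real.pi) * volume B) ∧
      ∀ V : Set ℂ, IsOpen V → V ⊆ Ω → Controlled Ω lam u V →
        ∃ L : ℕ → ℝ → ℝ≥0∞, (∀ n, Measurable (L n)) ∧
          (∀ n s, (Measure.hausdorffMeasure 1 : Measure ℂ) (levelCurve (u n) V s) ≤ L n s) ∧
          ∀ a b : ℝ, a ≤ b →
            limsup (fun n => (∫⁻ s in Set.Icc a b, L n s) / ENNReal.ofReal √(lam n)) atTop ≤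
              ENNReal.ofReal ((b - a) / 2) * volume V) ∧
    IsWaveSequence square (fun n => (n : ℝ) ^ 2) neumann ∧
    Controlled square (fun n => (n : ℝ) ^ 2) neumann square ∧
    ∀ n : ℕ, 1 ≤ n →
      (∀ z : ℂ, (z.re = 0 ∨ z.re = Real.pi) → fderiv ℝ (neumann n) z 1 = 0) ∧
      (∀ z : ℂ, fderiv ℝ (neumann n) z Complex.I = 0) ∧
      ∀ a b : ℝ, -√2 ≤ a → a ≤ b → b ≤ √2 →
        (∫⁻ z in square ∩ {z | a ≤ neumann n z ∧ neumann n z ≤ b},
          ENNReal.ofReal |fderiv ℝ (neumann n) z 1|) / ENNReal.ofReal √((n : ℝ) ^ 2) =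
          ENNReal.ofReal ((b - a) / Real.pi) * volume square := by
  have hpi := Real.pi_pos
  refine ⟨?_, ?_, ?_, ?_⟩
  · intro Ω lam u h
    have S : Pool.Agent.Q218.UB.Seq.Lq Ω (fun _ => 1) lam u :=
      ⟨h.isOpen, contDiffOn_const, fun _ _ => one_pos, h.tendsto, h.smooth, fun n z hz => by
        have h1 := h.eigen n z hz
        have e : laplacian (u n) z = Pool.Agent.Q218.UB.Seq.lp (u n) z := rfl
        rw [e] at h1
        rw [one_mul]; linarith, fun K hK hKΩ => h.bounded K hK hKΩ⟩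
    have up : ∀ (G : (ℂ → ℝ) → ℂ → ℝ) (c : ℝ), Pool.Agent.Q218.UB.Seq.FG G c → ∀ B : Set ℂ,
        MeasurableSet B → B ⊆ Ω → Controlled Ω lam u B → ∀ a b : ℝ, a ≤ b →
        Pool.Agent.Q218.UB.Seq.Up (Pool.Agent.Q218.UB.Seq.GS G (fun _ => 1) u lam a b B)
          (ENNReal.ofReal ((b - a) * c) * ∫⁻ z in B, ENNReal.ofReal ((fun _ : ℂ => (1 : ℝ)) z)) := by
      intro G c hG B hB hBΩ hC a b hab
      have vol : ∫⁻ z in B, ENNReal.ofReal ((fun _ : ℂ => (1 : ℝ)) z) = volume B := by simp
      rcases hC with ⟨K, hK, hBK, hKΩ⟩ | ⟨hfin, C, C0, hE⟩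
      · exact Pool.Agent.Q218.UB.Seq.BK_bd hG S hB hBK hK hKΩ hab
      · exact Pool.Agent.Q218.UB.Seq.B_bd hG S hB hBΩ (by rw [vol]; exact hfin) C0 hE hab
    refine ⟨?_, fun V hV hVΩ hC => ?_⟩
    swap
    · refine Pool.Agent.Q218.UB.Seq.curves S hV hVΩ (fun _ _ => rfl) ?_
        (up _ _ Pool.Agent.Q218.UB.Seq.fg_gd V hV.measurableSet hVΩ hC)
      rcases hC with ⟨K, hK, hBK, hKΩ⟩ | ⟨hfin, -⟩
      · exact ((measure_mono hBK).trans_lt hK.measure_lt_top).ne
      · exact hfin
    intro B hB hBΩ hC a b hab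
    have vol : ∫⁻ z in B, ENNReal.ofReal ((fun _ : ℂ => (1 : ℝ)) z) = volume B := by simp
    have key : ∀ (G : (ℂ → ℝ) → ℂ → ℝ) (c : ℝ), Pool.Agent.Q218.UB.Seq.FG G c →
        limsup (fun n => (∫⁻ z in B ∩ {z | a ≤ u n z ∧ u n z ≤ b}, ENNReal.ofReal (G (u n) z)) /
          ENNReal.ofReal √(lam n)) atTop ≤ ENNReal.ofReal ((b - a) * c) * volume B := by
      intro G c hG
      have h2 := (up G c hG B hB hBΩ hC a b hab).limsup_le
      rw [vol] at h2
      have h3 : Pool.Agent.Q218.UB.Seq.GS G (fun _ => 1) u lam a b B = fun n =>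
          (∫⁻ z in B ∩ {z | a ≤ u n z ∧ u n z ≤ b}, ENNReal.ofReal (G (u n) z)) /
            ENNReal.ofReal √(lam n) := by
        funext n
        unfold Pool.Agent.Q218.UB.Seq.GS
        simp only [Real.sqrt_one, one_mul]
      rw [h3] at h2
      exact h2
    refine ⟨?_, fun v hv => ?_⟩
    · have h1 := key _ _ Pool.Agent.Q218.UB.Seq.fg_gd
      have e : (b - a) * (1 / 2) = (b - a) / 2 := by ring
      rw [e] at h1
      exact h1
    · have h1 := key _ _ (Pool.Agent.Q218.UB.Seq.fg_dv hv.le)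
      have e : (b - a) * (1 / Real.pi) = (b - a) / Real.pi := by ring
      rw [e] at h1
      exact h1
  · refine ⟨Pool.Agent.Q218.UB.Seq.sq_open, ?_, fun n => (Pool.Agent.Q218.UB.Seq.nm_sm n).contDiffOn,
      fun n z _ => ?_, fun K hK _ => ⟨2 * (volume K).toReal, Eventually.of_forall fun n => ?_⟩⟩
    · exact (tendsto_pow_atTop (by norm_num)).comp tendsto_natCast_atTop_atTop
    · have e : laplacian (neumann n) z = Pool.Agent.Q218.UB.Seq.lp (Pool.Agent.Q218.UB.Seq.nm n) z := rfl
      have e2 : neumann n z = Pool.Agent.Q218.UB.Seq.nm n z := rfl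
      rw [e, e2, Pool.Agent.Q218.UB.Seq.nm_lp]
      ring
    · have h1 : ∀ z, neumann n z ^ 2 ≤ 2 := fun z => by
        unfold neumann
        rw [mul_pow, Real.sq_sqrt (by norm_num)]
        have := Real.cos_sq_le_one (n * z.re)
        linarith
      have h2 : ∫ z in K, neumann n z ^ 2 ≤ ∫ _ in K, (2 : ℝ) := by
        refine integral_mono ?_ ?_ h1
        · exact ((Pool.Agent.Q218.UB.Seq.nm_sm n).continuous.pow 2).continuousOn.integrableOn_compact hK
        · exact continuousOn_const.integrableOn_compact hK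
      refine h2.trans (le_of_eq ?_)
      rw [integral_const, smul_eq_mul, mul_comm]
      simp [Measure.real]
  · refine Or.inr ⟨?_, 2 * (Real.pi * Real.pi), by positivity, Eventually.of_forall fun n => ?_⟩
    · have e : volume square = ENNReal.ofReal Real.pi * ENNReal.ofReal Real.pi :=
        Pool.Agent.Q218.UB.Seq.sq_vol
      rw [e]
      exact ENNReal.mul_ne_top ENNReal.ofReal_ne_top ENNReal.ofReal_ne_top
    · have h1 : ∀ z, gradNorm (neumann n) z ^ 2 ≤ 2 * (n : ℝ) ^ 2 := fun z => by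
        have e : ∀ v, fderiv ℝ (neumann n) z v = -(√2 * n * Real.sin (n * z.re)) * v.re := fun v =>
          congrFun (Pool.Agent.Q218.UB.Seq.nm_dv n v) z
        unfold gradNorm
        rw [Real.sq_sqrt (by positivity), e, e]
        simp only [Complex.one_re, Complex.I_re, mul_one, mul_zero, neg_sq, mul_pow]
        rw [Real.sq_sqrt (by norm_num)]
        have := Real.sin_sq_le_one (n * z.re)
        nlinarith [sq_nonneg (n : ℝ)]
      calc ∫⁻ z in square, ENNReal.ofReal (gradNorm (neumann n) z ^ 2)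
          ≤ ∫⁻ _ in square, ENNReal.ofReal (2 * (n : ℝ) ^ 2) :=
            lintegral_mono fun z => ENNReal.ofReal_le_ofReal (h1 z)
        _ = ENNReal.ofReal (2 * (n : ℝ) ^ 2) * volume square := by
            rw [lintegral_const, Measure.restrict_apply_univ]
        _ = _ := by
            have e : volume square = ENNReal.ofReal Real.pi * ENNReal.ofReal Real.pi :=
              Pool.Agent.Q218.UB.Seq.sq_vol
            rw [e, ← ENNReal.ofReal_mul hpi.le, ← ENNReal.ofReal_mul (by positivity)]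
            congr 1
            ring
  · intro n hn
    have e : ∀ v z, fderiv ℝ (neumann n) z v = -(√2 * n * Real.sin (n * z.re)) * v.re := fun v z =>
      congrFun (Pool.Agent.Q218.UB.Seq.nm_dv n v) z
    refine ⟨fun z hz => ?_, fun z => by rw [e]; simp, fun a b ha _ hb => ?_⟩
    · rw [e]
      rcases hz with h | h
      · rw [h]; simp
      · rw [h, Real.sin_nat_mul_pi]; simp
    · have n0 : (0 : ℝ) < n := by exact_mod_cast hn
      have h1 := Pool.Agent.Q218.UB.Seq.sq_int hn ha hb
      have h2 : ∫⁻ z in square ∩ {z | a ≤ neumann n z ∧ neumann n z ≤ b},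
          ENNReal.ofReal |fderiv ℝ (neumann n) z 1| =
          ENNReal.ofReal Real.pi * (n * ENNReal.ofReal (b - a)) := h1
      have e3 : volume square = ENNReal.ofReal Real.pi * ENNReal.ofReal Real.pi :=
        Pool.Agent.Q218.UB.Seq.sq_vol
      have e4 : ((n : ℕ) : ℝ≥0∞) = ENNReal.ofReal n := (ENNReal.ofReal_natCast n).symm
      rw [h2, e3, Real.sqrt_sq n0.le, e4, ← ENNReal.ofReal_mul n0.le, ← ENNReal.ofReal_mul hpi.le,
        ← ENNReal.ofReal_mul hpi.le, ← ENNReal.ofReal_div_of_pos n0, ← ENNReal.ofReal_mul' (by positivity)]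
      congr 1
      field_simp

end

end Pool.Agent.HT177.Split.LS
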