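import Pool.Agent.Q120.ME.General
import Pool.Agent.Q160.LT.Mass
import Pool.Agent.Q160.LT.Asb

/-!
# The Lang–Trotter bound for random sets of primes near the Lang–Trotter model

In the model of Lang and Trotter each prime `p` has the property `a_p = a` independently with probability `C / (2 √p)`, so that the expected number
of such primes below `x` is asymptotic to `E C x = C √x / log x`. For any random set `A` of primes (no independence is assumed) `D C μ A x` is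
the relative entropy (nats) of the law of the set of the primes below `x` in `A` with respect to the model, and `N (A ω) x` is their number.
(Definitions and proofs of helper160 for the three hand-ins on MP_631487_nt.)
-/

set_option autoImplicit false

namespace Pool.Agent.HT177.Split.LT

open MeasureTheory Filter Pool.Agent.Q120.ET Pool.Agent.Q120.ME
open scoped Topology

/-- The probability that `a_p = a` for the prime `p`: `C / (2 √p)`, at most `1 / 2`. -/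
noncomputable def rate (C : ℝ) (p : ℕ) : ℝ := min (1 / 2) (C / (2 * √p))

/-- The order of magnitude of the question: `C √x / log x`. -/
noncomputable def E (C : ℝ) (x : ℕ) : ℝ := C * (√x / Real.log x)

/-- The number of the primes below `x` in `S`. -/
noncomputable def N (S : Set ℕ) (x : ℕ) : ℕ := cnt {n | n.Prime} S x

/-- The relative entropy (nats) of the law of the set of the primes below `x` in `A`, with respect to the model. -/
noncomputable def D (C : ℝ) {Ω : Type*} [MeasurableSpace Ω] (μ : Measure Ω) (A : Ω → Set ℕ) (x : ℕ) : ℝ :=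
  relEnt (rate C) μ A (ind {n | n.Prime} x)

/-- The class `δ`: `D(x) ≤ (δ + o(1)) C √x / log x`. -/
def Cls (C δ : ℝ) {Ω : Type*} [MeasurableSpace Ω] (μ : Measure Ω) (A : Ω → Set ℕ) : Prop :=
  IsRandomSet A ∧ ∀ ε : ℝ, 0 < ε → ∀ᶠ x : ℕ in atTop, D C μ A x ≤ (δ + ε) * E C x

theorem cls_eq {C : ℝ} (hC : 0 < C) {δ : ℝ} (hδ : 0 ≤ δ) {Ω : Type*} [MeasurableSpace Ω] (μ : Measure Ω) (A : Ω → Set ℕ) :
    Cls C δ μ A ↔ GCls Q160.LT.P (rate C) δ μ A := by
  unfold Cls GCls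
  refine and_congr_right (fun _ => ?_)
  exact (Q160.LT.cls_iff hC (fun x => D C μ A x) δ hδ).symm

theorem tend_iff {C : ℝ} (hC : 0 < C) (S : Set ℕ) (l : ℝ) :
    Tendsto (fun x : ℕ => (cnt Q160.LT.P S x : ℝ) / mass Q160.LT.P (rate C) x) atTop (𝓝 l) ↔
      Tendsto (fun x : ℕ => (N S x : ℝ) / E C x) atTop (𝓝 l) :=
  Q160.LT.tendsto_iff hC (fun x => (cnt Q160.LT.P S x : ℝ)) l

theorem order (C : ℝ) (hC : 0 < C) (d : ℕ → ℝ) (hm : Monotone d) (hd : ∀ n, 0 ≤ d n) :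
    (Summable (fun p : ℕ => if p.Prime then d p * Real.log p ^ 2 / (p * √p) else 0) →
      ∀ (Ω : Type) [MeasurableSpace Ω] (μ : Measure Ω) [IsProbabilityMeasure μ] (A : Ω → Set ℕ), IsRandomSet A →
        (∀ᶠ x : ℕ in atTop, D C μ A x ≤ d x) → ∀ᵐ ω ∂μ, Tendsto (fun x : ℕ => (N (A ω) x : ℝ) / E C x) atTop (𝓝 1)) ∧
    (¬ Summable (fun p : ℕ => if p.Prime then d p * Real.log p ^ 2 / (p * √p) else 0) →
      ∃ (Ω : Type) (_ : MeasurableSpace Ω) (μ : Measure Ω) (_ : IsProbabilityMeasure μ) (A : Ω → Set ℕ), IsRandomSet A ∧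
        (∀ᶠ x : ℕ in atTop, D C μ A x ≤ d x) ∧
        ∀ᵐ ω ∂μ, ∀ B : ℝ, ∃ᶠ x : ℕ in atTop, B * (√x / Real.log x) < N (A ω) x) := by
  have hU : Rates Q160.LT.P (rate C) := Q160.LT.rates hC
  have hG := general Q160.LT.P (rate C) hU
  refine ⟨fun hs Ω _ μ _ A hA hD => ?_, fun hs => ?_⟩
  · have h1 := ((hG.1 d hm hd).2 ((Q160.LT.conv_iff hC d).2 hs)) Ω μ A hA hD
    filter_upwards [h1] with ω hω
    exact (tend_iff hC _ _).1 hω
  · have hn : ¬ Conv Q160.LT.P (rate C) d := fun h => hs ((Q160.LT.conv_iff hC d).1 h)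
    obtain ⟨Ω, m, μ, hμ, A, hA, h1, h2⟩ := Q160.LT.t_ASB Pool.Agent.Q285.ME.t_CON Pool.Agent.Q224.ME.t_ENM
      Pool.Agent.Q224.ME.t_KLB hU hm hd hn
    refine ⟨Ω, m, μ, hμ, A, hA, h1, ?_⟩
    filter_upwards [h2] with ω hω B
    refine (hω (2 * |B| / C)).mp ?_
    filter_upwards [(Q160.LT.mass_ratio hC).eventually (lt_mem_nhds (show (1 / 2 : ℝ) < 1 by norm_num)),
      (Q160.LT.E_tend hC).eventually_gt_atTop 0, Q160.LT.half_tend.eventually_gt_atTop 0] with x h3 h4 h5 h6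
    rw [lt_div_iff₀ h4] at h3
    change _ < (cnt Q160.LT.P (A ω) x : ℝ)
    refine lt_of_le_of_lt ?_ h6
    have h7 : B * (√x / Real.log x) ≤ |B| * (√x / Real.log x) := mul_le_mul_of_nonneg_right (le_abs_self B) h5.le
    have h8 : 2 * |B| / C * (1 / 2 * Q160.LT.E C x) = |B| * (√x / Real.log x) := by
      unfold Q160.LT.E
      field_simp
    rw [← h8] at h7
    exact h7.trans (mul_le_mul_of_nonneg_left h3.le (by positivity))

theorem laws (C : ℝ) (hC : 0 < C) (δ : ℝ) (hδ : 0 ≤ δ) (ν : Measure ℝ) (hν : IsProbabilityMeasure ν) :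
    (∃ (Ω : Type) (_ : MeasurableSpace Ω) (μ : Measure Ω) (_ : IsProbabilityMeasure μ) (A : Ω → Set ℕ) (L : Ω → ℝ), Cls C δ μ A ∧
      Measurable L ∧ μ.map L = ν ∧ ∀ᵐ ω ∂μ, Tendsto (fun x : ℕ => (N (A ω) x : ℝ) / E C x) atTop (𝓝 (L ω))) ↔
    ν (Set.Iio 0) = 0 ∧ ∫⁻ u, ENNReal.ofReal (u * Real.log u - u + 1) ∂ν ≤ ENNReal.ofReal δ := by
  have hU : Rates Q160.LT.P (rate C) := Q160.LT.rates hC
  obtain ⟨h1, -, -⟩ := (general Q160.LT.P (rate C) hU).2 δ hδ
  rw [← h1 ν hν]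
  constructor
  · rintro ⟨Ω, m, μ, hμ, A, L, hA, hL, hmap, hlim⟩
    refine ⟨Ω, m, μ, hμ, A, L, (cls_eq hC hδ μ A).1 hA, hL, hmap, ?_⟩
    filter_upwards [hlim] with ω hω
    exact (tend_iff hC _ _).2 hω
  · rintro ⟨Ω, m, μ, hμ, A, L, hA, hL, hmap, hlim⟩
    refine ⟨Ω, m, μ, hμ, A, L, (cls_eq hC hδ μ A).2 hA, hL, hmap, ?_⟩
    filter_upwards [hlim] with ω hω
    exact (tend_iff hC _ _).1 hω

theorem finite_prob (C : ℝ) (hC : 0 < C) (δ : ℝ) (hδ : 0 ≤ δ) :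
    (∀ (Ω : Type) [MeasurableSpace Ω] (μ : Measure Ω) [IsProbabilityMeasure μ] (A : Ω → Set ℕ), Cls C δ μ A →
      μ.real {ω | (A ω ∩ {n | n.Prime}).Finite} ≤ δ) ∧
    ∃ (Ω : Type) (_ : MeasurableSpace Ω) (μ : Measure Ω) (_ : IsProbabilityMeasure μ) (A : Ω → Set ℕ), Cls C δ μ A ∧
      μ.real {ω | (A ω ∩ {n | n.Prime}).Finite} = min 1 δ := by
  have hU : Rates Q160.LT.P (rate C) := Q160.LT.rates hC
  obtain ⟨-, h2, h3⟩ := (general Q160.LT.P (rate C) hU).2 δ hδ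
  refine ⟨fun Ω _ μ _ A hA => h2 Ω μ A ((cls_eq hC hδ μ A).1 hA), ?_⟩
  obtain ⟨Ω, m, μ, hμ, A, hA, h4⟩ := h3
  exact ⟨Ω, m, μ, hμ, A, (cls_eq hC hδ μ A).2 hA, h4⟩

end Pool.Agent.HT177.Split.LT
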