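import Mathlib
import Pool.Agent.Q283.FS.Mr
import Pool.Agent.Q283.FS.Ms

/-!
# The Tate-Shafarevich groups of the quadratic twists over multiquadratic extensions of `F_q(t)`

Definitions and proofs of helper283 for the hand-ins FiniteOverMultiquadratic and BlocksWithoutGrowth on
MP_72e2e6_nt.
-/

set_option autoImplicit false

namespace Pool.Agent.HT177.Split.MQ

open Polynomial Filter IsDedekindDomain Pool.Agent.TH115.GD
open scoped Classical

/-- The polynomial `f` is not a square modulo `Q` (in particular it is not divisible by `Q`). -/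
def NonSquareMod {k : Type} [Field k] (Q f : k[X]) : Prop := ∀ h : k[X], ¬ Q ∣ h ^ 2 - f

/-- The polynomial `f` is not a constant multiple of a square. -/
def NotConstSquare {k : Type} [Field k] (f : k[X]) : Prop := ∀ (c : k) (h : k[X]), f ≠ C c * h ^ 2

/-- The monic squarefree polynomials `D` of degree `n` for which `b D` is not a square modulo the prime
divisors of `a` and `a D` is not a square modulo the prime divisors of `b (a - b)`. -/
def NonSplitTwists {k : Type} [Field k] (a b : k[X]) (n : ℕ) : Set k[X] :=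
  {D | D.Monic ∧ D.natDegree = n ∧ Squarefree D ∧
    (∀ Q : k[X], Irreducible Q → Q ∣ a → NonSquareMod Q (b * D)) ∧
    (∀ Q : k[X], Irreducible Q → Q ∣ b * (a - b) → NonSquareMod Q (a * D))}

/-- The sequences of pairwise coprime nonconstant monic squarefree polynomials of even degree that are
nonzero squares modulo the prime divisors of `a b (a - b)`. -/
structure Multipliers {k : Type} [Field k] (a b : k[X]) (m : ℕ → k[X]) : Prop where
  monic : ∀ i, (m i).Monic
  squarefree : ∀ i, Squarefree (m i)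
  degree : ∀ i, 0 < (m i).natDegree
  even : ∀ i, Even (m i).natDegree
  square : ∀ i, ∀ Q : k[X], Irreducible Q → Q ∣ a * b * (a - b) →
    ¬ Q ∣ m i ∧ ∃ h : k[X], Q ∣ h ^ 2 - m i
  coprime : ∀ i j, i ≠ j → IsCoprime (m i) (m j)

/-- The curve `E_D : y ^ 2 = x (x - a D) (x - b D)` over `K = k(t)`. -/
noncomputable def twist {k : Type} [Field k] (K : Type) [Field K] [Algebra k[X] K]
    (a b D : k[X]) : WeierstrassCurve K :=
  crv (algebraMap k[X] K (a * D)) (algebraMap k[X] K (b * D))

/-- The group `W(K)` is finite and the 2-primary part of the Tate-Shafarevich group of `W` over `K` is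
zero. -/
def Good (k : Type) {K : Type} [Field k] [Field K] [Algebra k[X] K] [IsFractionRing k[X] K]
    (W : WeierstrassCurve K) : Prop := Finite (Pt W K) ∧ ShaTwo k W

/-- The proportion of the `D` with the property `P` in `NonSplitTwists a b n`. -/
noncomputable def proportion {k : Type} [Field k] (a b : k[X]) (P : k[X] → Prop) (n : ℕ) : ℝ :=
  (({D ∈ NonSplitTwists a b n | P D}.ncard : ℕ) : ℝ) / (((NonSplitTwists a b n).ncard : ℕ) : ℝ)

/-- `n` goes to infinity with `n + N` odd. -/
def degrees (N : ℕ) : Filter ℕ := atTop ⊓ 𝓟 {n | Odd (n + N)}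

/-- The number `c = ∏_{i odd} (1 - 2^{-i})`. -/
noncomputable def c : ℝ := ∏' i : ℕ, (1 - (1 / 2 : ℝ) ^ (2 * i + 1))

/-- The field `L_I = K(√m_i, i ∈ I)` inside the separable closure of `K`. -/
noncomputable def extension {k : Type} [Field k] (K : Type) [Field K] [Algebra k[X] K]
    (m : ℕ → k[X]) (I : Finset ℕ) : IntermediateField K (Sep K) :=
  IntermediateField.adjoin K
    {z | ∃ i ∈ I, z ^ 2 = algebraMap K (Sep K) (algebraMap k[X] K (m i))}

/-- The points of `W` over `L` form a finite group: `W(L)` consists of the points over the separable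
closure of `K` which are fixed by the Galois group of `L`. -/
def FinitePoints {K : Type} [Field K] (W : WeierstrassCurve K) (L : IntermediateField K (Sep K)) :
    Prop := {P : Pt W (Sep K) | ∀ σ : Sep K ≃ₐ[L] Sep K, act W (rs K σ) P = P}.Finite

/-- A fixed positive multiple of every point of `W` over `L` belongs to `W(K)`. -/
def SameRank {K : Type} [Field K] (W : WeierstrassCurve K) (L : IntermediateField K (Sep K)) : Prop :=
  ∃ n : ℕ, 0 < n ∧ ∀ P : Pt W (Sep K), (∀ σ : Sep K ≃ₐ[L] Sep K, act W (rs K σ) P = P) →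
    ∃ Q : Pt W K, n • P = act W (incl K K (Sep K)) Q

/-- `F` is the completion of `K` at a place, and `f` a cochain of the Galois group of `L` with values in
`W`. The restriction of `f` is a coboundary at all the places of `L` above this place: they are given by
the embeddings `j` of the separable closure of `K` in that of `F`, the completion of `L` is `F j(L)`, and
its Galois group consists of the `τ` which induce, through `j`, automorphisms `σ` over `L`. -/
def TrivialAbove {K : Type} [Field K] (W : WeierstrassCurve K) (L : IntermediateField K (Sep K))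
    (F : Type) [Field F] [Algebra K F] (f : (Sep K ≃ₐ[L] Sep K) → Pt W (Sep K)) : Prop :=
  ∀ j : Sep K →ₐ[K] Sep F, ∃ P : Pt W (Sep F), ∀ (τ : Sep F ≃ₐ[F] Sep F) (σ : Sep K ≃ₐ[L] Sep K),
    (∀ x, τ (j x) = j (σ x)) → act W j (f σ) = act W (rs K τ) P - P

/-- `f` is a continuous cocycle of the Galois group of `L` with values in `W`, whose class belongs to the
2-primary part of the Tate-Shafarevich group of `W` over `L`: it is a coboundary at all the places of `L`,
and a power of two kills the class. -/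
structure IsSha (k : Type) {K : Type} [Field k] [Field K] [Algebra k[X] K] [IsFractionRing k[X] K]
    (W : WeierstrassCurve K) (L : IntermediateField K (Sep K))
    (f : (Sep K ≃ₐ[L] Sep K) → Pt W (Sep K)) : Prop where
  cocycle : IsCoc W f
  finite : ∀ v : HeightOneSpectrum k[X], TrivialAbove W L (Comp k[X] K v) f
  infinite : TrivialAbove W L (CompInf k K) f
  two : ∃ (e : ℕ) (R : Pt W (Sep K)), ∀ σ, 2 ^ e • f σ = act W (rs K σ) R - R

/-- `2 ^ n` kills the 2-primary part of the Tate-Shafarevich group of `W` over `L`. -/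
def ShaKilled (k : Type) {K : Type} [Field k] [Field K] [Algebra k[X] K] [IsFractionRing k[X] K]
    (W : WeierstrassCurve K) (L : IntermediateField K (Sep K)) (n : ℕ) : Prop :=
  ∀ f : (Sep K ≃ₐ[L] Sep K) → Pt W (Sep K), IsSha k W L f →
    ∃ R : Pt W (Sep K), ∀ σ, 2 ^ n • f σ = act W (rs K σ) R - R

/-- For all the classes `x` in the 2-primary part of the Tate-Shafarevich group of `W` over `L`, `2 ^ n x`
is the restriction of a class `g` in the 2-primary part of the Tate-Shafarevich group of `W` over `K`. -/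
def ShaRestricted (k : Type) {K : Type} [Field k] [Field K] [Algebra k[X] K] [IsFractionRing k[X] K]
    (W : WeierstrassCurve K) (L : IntermediateField K (Sep K)) (n : ℕ) : Prop :=
  ∀ f : (Sep K ≃ₐ[L] Sep K) → Pt W (Sep K), IsSha k W L f →
    ∃ g : (Sep K ≃ₐ[K] Sep K) → Pt W (Sep K), IsCoc W g ∧ LocallyTrivial k W g ∧
      (∃ (e : ℕ) (R : Pt W (Sep K)), ∀ σ, 2 ^ e • g σ = act W (rs K σ) R - R) ∧
      ∃ R : Pt W (Sep K), ∀ σ : Sep K ≃ₐ[L] Sep K,
        2 ^ n • f σ = g (σ.restrictScalars K) + (act W (rs K σ) R - R)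

/-- All the twists of `E_D` by the nontrivial quadratic characters of `Gal(L_I/K)` are good. -/
def NontrivialTwistsGood {k : Type} [Field k] (K : Type) [Field K] [Algebra k[X] K]
    [IsFractionRing k[X] K] (a b : k[X]) (m : ℕ → k[X]) (I : Finset ℕ) (D : k[X]) : Prop :=
  ∀ S ⊆ I, S.Nonempty → Good k (twist K a b (D * ∏ i ∈ S, m i))

section proof

open Q283.FS Pool.Agent.Y164.PS Q283.ML

variable {k K : Type} [Field k] [Field K] [Algebra k[X] K] [IsFractionRing k[X] K]

omit [IsFractionRing k[X] K] in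
theorem ext_eq {m : ℕ → k[X]} {ρ : ℕ → Sep K}
    (hρ : ∀ i, ρ i ^ 2 = algebraMap K (Sep K) (algebraMap k[X] K (m i))) (I : Finset ℕ) :
    extension K m I = Q283.ML.LT (K := K) ρ I := by
  unfold extension Q283.ML.LT
  apply le_antisymm
  · rw [IntermediateField.adjoin_le_iff]
    rintro z ⟨i, hi, hz⟩
    have h1 : ρ i ∈ IntermediateField.adjoin K (ρ '' (I : Set ℕ)) :=
      IntermediateField.subset_adjoin K _ ⟨i, hi, rfl⟩
    rw [← hρ i] at hz
    rcases sq_eq_sq_iff_eq_or_eq_neg.1 hz with rfl | rfl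
    · exact h1
    · exact neg_mem h1
  · rw [IntermediateField.adjoin_le_iff]
    rintro _ ⟨i, hi, rfl⟩
    exact IntermediateField.subset_adjoin K _ ⟨i, hi, hρ i⟩

theorem LT_eq_LL (ρ : ℕ → Sep K) (I : Finset ℕ) :
    Q283.ML.LT (K := K) ρ I = LL (K := K) (fun i : I => ρ i) := by
  unfold Q283.ML.LT LL
  congr 1
  ext z
  constructor
  · rintro ⟨i, hi, rfl⟩
    exact ⟨⟨i, hi⟩, rfl⟩
  · rintro ⟨i, rfl⟩
    exact ⟨i, i.2, rfl⟩

theorem sub_prod (m : ℕ → K) (I : Finset ℕ) (T : Finset I) :
    ∏ i ∈ T, m i = ∏ i ∈ T.map (Function.Embedding.subtype _), m i := by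
  rw [Finset.prod_map]
  rfl

theorem map_sub' (I : Finset ℕ) (T : Finset I) : T.map (Function.Embedding.subtype _) ⊆ I := by
  intro i hi
  obtain ⟨j, -, rfl⟩ := Finset.mem_map.1 hi
  exact j.2

/-- the points and the Tate-Shafarevich group over `L_I` -/
theorem over_ext (h2 : (2 : K) ≠ 0) {a b D : k[X]} {m : ℕ → k[X]} (hm : ∀ i, m i ≠ 0) (I : Finset ℕ) :
    ((∀ S ⊆ I, Good k (twist K a b (D * ∏ i ∈ S, m i))) →
      FinitePoints (twist K a b D) (extension K m I) ∧
        ShaKilled k (twist K a b D) (extension K m I) I.card) ∧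
    (NontrivialTwistsGood K a b m I D →
      SameRank (twist K a b D) (extension K m I) ∧
        ShaRestricted k (twist K a b D) (extension K m I) I.card) := by
  have : NeZero ((2 : ℕ) : Sep K) := ⟨by
    have h5 := (_root_.map_ne_zero (algebraMap K (Sep K))).2 h2
    rwa [map_ofNat] at h5⟩
  have hex : ∀ i, ∃ z : Sep K, z ^ 2 = algebraMap K (Sep K) (algebraMap k[X] K (m i)) :=
    fun i => IsSepClosed.exists_pow_nat_eq _ 2
  choose ρ hρ using hex
  have h0 : ∀ i, ρ i ≠ 0 := by
    intro i h
    have h1 := hρ i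
    rw [h, zero_pow two_ne_zero, eq_comm, map_eq_zero, ] at h1
    exact hm i ((map_eq_zero_iff _ (IsFractionRing.injective k[X] K)).1 h1)
  set A := algebraMap k[X] K (a * D) with hA
  set B := algebraMap k[X] K (b * D) with hB
  have htw : twist K a b D = crv A B := rfl
  have htS : ∀ S : Finset ℕ, twist K a b (D * ∏ i ∈ S, m i) =
      crv (A * ∏ i ∈ S, algebraMap k[X] K (m i)) (B * ∏ i ∈ S, algebraMap k[X] K (m i)) := by
    intro S
    unfold twist
    rw [← mul_assoc, ← mul_assoc, map_mul _ (a * D), map_mul _ (b * D), map_prod]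
  have htT : ∀ T : Finset I, twist K a b (D * ∏ i ∈ T.map (Function.Embedding.subtype _), m i) =
      crv (A * ∏ i ∈ T, algebraMap k[X] K (m i)) (B * ∏ i ∈ T, algebraMap k[X] K (m i)) := by
    intro T
    rw [htS, sub_prod (fun i => algebraMap k[X] K (m i)) I T]
  rw [ext_eq hρ I, htw]
  have conv : ∀ {f : (Sep K ≃ₐ[LL (K := K) (fun i : I => ρ i)] Sep K) → Pt (crv A B) (Sep K)},
      IsSha k (crv A B) (LL (K := K) (fun i : I => ρ i)) f →
      Q283.ML.IsSha k (crv A B) (LL (K := K) (fun i : I => ρ i)) f :=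
    fun h => ⟨h.cocycle, h.finite, h.infinite, h.two⟩
  have hcard : Fintype.card I = I.card := Fintype.card_coe I
  refine ⟨fun h => ⟨?_, ?_⟩, fun h => ⟨?_, ?_⟩⟩
  · exact fixed_fin h2 hρ h0 I fun S hS => by
      have h3 := (h S hS).1
      rw [htS] at h3
      exact h3
  · rw [LT_eq_LL]
    intro f hf
    rw [← hcard]
    exact sha_good h2 (fun i : I => hρ i) (fun i : I => h0 i) (conv hf) fun T => by
      have h3 := (h _ (map_sub' I T)).2
      rw [htT] at h3
      exact h3
  · exact fixed_stab h2 hρ h0 I fun S hS hne => by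
      have h3 := (h S hS hne).1
      rw [htS] at h3
      exact h3
  · rw [LT_eq_LL]
    intro f hf
    rw [← hcard]
    exact sha_stab h2 (fun i : I => hρ i) (fun i : I => h0 i) (conv hf) fun T hne => by
      have h3 := (h _ (map_sub' I T) (hne.map)).2
      rw [htT] at h3
      exact h3

/-- the event of a block, in terms of the matrices -/
def Ev {k : Type} [Field k] [Fintype k] [DecidableEq k] {a b : k[X]} {N : ℕ} (H : Hyp a b N)
    (m : ℕ → k[X]) (I : ℕ → Finset ℕ) (j : ℕ) (D : k[X]) : Prop :=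
  ∀ S ∈ neS (I j), rr H (pf (mS m S)) D = 0

theorem fr {α : Type} {P Q : ℕ → α → Prop} (J : ℕ) (p ε : ℝ) (D : α)
    (h : ∀ j, P j D ↔ Q j D) {i1 : DecidablePred fun j => P j D} {i2 : DecidablePred fun j => Q j D} :
    (ε ≤ |((@Finset.filter ℕ (fun j => P j D) i1 (Finset.range J)).card : ℝ) / J - p|) ↔
    (ε ≤ |((@Finset.filter ℕ (fun j => Q j D) i2 (Finset.range J)).card : ℝ) / J - p|) := by
  have e : (@Finset.filter ℕ (fun j => P j D) i1 (Finset.range J)).card =
      (@Finset.filter ℕ (fun j => Q j D) i2 (Finset.range J)).card := Q283.Bin.fcc fun j _ => h j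
  rw [e]

end proof

open Q283.FS Pool.Agent.Y164.PS in
theorem all (k : Type) [Field k] [Finite k] (h2 : (2 : k) ≠ 0) (hi : IsSquare (-1 : k))
    (K : Type) [Field K] [Algebra k[X] K] [IsFractionRing k[X] K] (a b : k[X]) (N : ℕ)
    (hco : IsCoprime a b) (ha : a.natDegree = N) (hb : b.natDegree = N)
    (hab : (a - b).natDegree = N) (h₁ : NotConstSquare (a * b))
    (h₂ : NotConstSquare (a * (a - b))) (h₃ : NotConstSquare (b * (a - b)))
    (m : ℕ → k[X]) (hm : Multipliers a b m) :
    (∀ I : Finset ℕ, Tendsto (proportion a b fun D =>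
      ∀ S ⊆ I, Good k (twist K a b (D * ∏ i ∈ S, m i))) (degrees N) (nhds (c ^ 2 ^ I.card))) ∧
    (∀ (D : k[X]) (I : Finset ℕ), (∀ S ⊆ I, Good k (twist K a b (D * ∏ i ∈ S, m i))) →
      FinitePoints (twist K a b D) (extension K m I) ∧
        ShaKilled k (twist K a b D) (extension K m I) I.card) ∧
    (∀ (n : ℕ) (I : ℕ → Finset ℕ), (∀ j, (I j).card = n) → (∀ i j, i ≠ j → Disjoint (I i) (I j)) →
      (∀ J : ℕ, 0 < J → ∀ ε : ℝ, 0 < ε → ∃ l : ℝ, l ≤ 2 * Real.exp (-(ε ^ 2 * J / 4)) ∧
        Tendsto (proportion a b fun D => ε ≤ |(((Finset.range J).filter fun j =>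
          NontrivialTwistsGood K a b m (I j) D).card : ℝ) / J - c ^ (2 ^ n - 1)|)
            (degrees N) (nhds l)) ∧
      ∀ M : ℕ, Tendsto (proportion a b fun D => ∃ F : Finset ℕ, F.card = M ∧ ∀ j ∈ F,
        NontrivialTwistsGood K a b m (I j) D) (degrees N) (nhds 1)) ∧
    (∀ (D : k[X]) (I : Finset ℕ), NontrivialTwistsGood K a b m I D →
      SameRank (twist K a b D) (extension K m I) ∧
        ShaRestricted k (twist K a b D) (extension K m I) I.card) ∧
    0.4194 < c ∧ c < 0.4195 := by
  let _ : Fintype k := Fintype.ofFinite k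
  have H : Hyp a b N := mk_hyp h2 hi hco ha hb hab h₁ h₂
  have hq := four_le h2 hi
  have h2t := two_types H h₁ h₂ h₃
  have hm' : Cop a b m := ⟨fun i => ⟨hm.monic i, hm.squarefree i, hm.even i, hm.square i⟩,
    hm.degree, hm.coprime⟩
  have h2K : (2 : K) ≠ 0 := Pool.Agent.TH115.GD.tt h2
  have hne : ∀ i, m i ≠ 0 := fun i => (hm.monic i).ne_zero
  have hc0 : lw 0 = c := lw_zero
  have good : ∀ {n : ℕ} {D : k[X]}, Odd (n + N) → D ∈ Cn a b n → ∀ S : Finset ℕ,
      (Good k (twist K a b (D * ∏ i ∈ S, m i)) ↔ rr H (pf (mS m S)) D = 0) := by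
    intro n D ho hD S
    exact (arith (K := K) H hD ho (mS_mlt hm' S)).2.2.2.symm
  have prop_eq : ∀ P : k[X] → Prop, ∀ n, (((Cn a b n).filter fun D => P D).card : ℝ) /
      ((Cn a b n).card : ℝ) = proportion a b P n := by
    intro P n
    have e1 := ncard_cls H n P
    have e2 := ncard_cls' H n
    show _ = (({D ∈ cls a b n | P D}.ncard : ℕ) : ℝ) / (((cls a b n).ncard : ℕ) : ℝ)
    rw [e1, e2]
  refine ⟨fun I => ?_, fun D I => (over_ext h2K hne I).1, fun n I hI hd => ?_,
    fun D I => (over_ext h2K hne I).2, ?_⟩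
  · refine tendsto_par fun e he => ?_
    have h := all_zero H hq h2t hm' I.powerset he
    rw [Finset.card_powerset, hc0] at h
    refine h.congr fun X => ?_
    rw [← prop_eq]
    congr 2
    refine Q283.Bin.fcc fun D hD => forall_congr' fun S => ?_
    rw [Finset.mem_powerset]
    exact forall_congr' fun _ => (good (par_odd X he) hD S).symm
  · have hP : ∀ (X e : ℕ), Odd (e + N) → ∀ D ∈ Cn a b (2 * X + e), ∀ j,
        (Ev H m I j D ↔ NontrivialTwistsGood K a b m (I j) D) := by
      intro X e he D hD j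
      constructor
      · intro h S hS hne'
        exact (good (par_odd X he) hD S).2 (h S (mem_neS.2 ⟨hne', hS⟩))
      · intro h S hS
        exact (good (par_odd X he) hD S).1 (h S (mem_neS.1 hS).2 (mem_neS.1 hS).1)
    have hB : ∀ e : ℕ, Odd (e + N) → ∀ B : Finset ℕ, Tendsto (fun X : ℕ =>
        (((Cn a b (2 * X + e)).filter fun D => ∀ j ∈ B, Ev H m I j D).card : ℝ) /
          ((Cn a b (2 * X + e)).card : ℝ)) atTop (nhds ((lw 0 ^ (2 ^ n - 1)) ^ B.card)) := by
      intro e he B
      refine (pat_blocks H hq h2t hm' hI hd he B).congr fun X => ?_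
      congr 2
      exact Q283.Bin.fcc fun D _ => Iff.rfl
    have hp0 : 0 ≤ lw 0 ^ (2 ^ n - 1) := pow_nonneg (lw_pos 0).le _
    have hp1 : lw 0 ^ (2 ^ n - 1) ≤ 1 := pow_le_one₀ (lw_pos 0).le (lw_le 0)
    constructor
    · intro J hJ ε hε
      obtain ⟨e, he, he1⟩ := exists_par N
      obtain ⟨l, g1, g2⟩ := Q283.Bin.lln_exp hp0 hp1
        (pat_of_all (P := Ev H m I) (hB e he)) J hJ ε hε
      rw [hc0] at g2
      refine ⟨l, g1, tendsto_one he he1 (g2.congr fun X => ?_)⟩
      rw [← prop_eq]
      have e3 : ((Cn a b (2 * X + e)).filter fun D => ε ≤ |(((Finset.range J).filter fun j =>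
          Ev H m I j D).card : ℝ) / J - c ^ (2 ^ n - 1)|).card =
          ((Cn a b (2 * X + e)).filter fun D => ε ≤ |(((Finset.range J).filter fun j =>
          NontrivialTwistsGood K a b m (I j) D).card : ℝ) / J - c ^ (2 ^ n - 1)|).card :=
        Q283.Bin.fcc fun D hD => fr (P := Ev H m I)
          (Q := fun j D => NontrivialTwistsGood K a b m (I j) D) J _ ε D (hP X e he D hD)
      rw [e3]
    · intro M
      refine tendsto_par fun e he => ?_
      have h := Q283.Bin.many (P := Ev H m I)
        (p := lw 0 ^ (2 ^ n - 1)) (pow_pos (lw_pos 0) _) (ne_Cn H hq h2t he) (fun j => by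
          have h3 := hB e he {j}
          rw [Finset.card_singleton, pow_one] at h3
          refine h3.congr fun X => ?_
          congr 2
          refine Q283.Bin.fcc fun D _ => ?_
          simp only [Finset.mem_singleton, forall_eq]) (fun i j hij => by
          have h3 := hB e he {i, j}
          rw [Finset.card_pair hij, pow_two] at h3
          refine h3.congr fun X => ?_
          congr 2
          refine Q283.Bin.fcc fun D _ => ?_
          simp only [Finset.mem_insert, Finset.mem_singleton, forall_eq_or_imp, forall_eq]) M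
      refine h.congr fun X => ?_
      rw [← prop_eq]
      congr 2
      refine Q283.Bin.fcc fun D hD => ?_
      exact exists_congr fun F => and_congr_right fun _ => forall_congr' fun j =>
        forall_congr' fun _ => hP X e he D hD j
  · exact Pool.Agent.Y948.CQ.t_C2.2.2.2

end Pool.Agent.HT177.Split.MQ
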